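import Pool.Agent.Run7.h172.Nil.Stm
import Pool.Agent.Run7.h803.Nil.Core

/-!
# Project NIL (helper172), piece INVK
-/

set_option autoImplicit false

namespace Pool.Agent.Run7.h803.Nil

/-- **INVK** -/
theorem invk : Pool.Agent.Helper44K9.FN.S_AFF → Pool.Agent.Run7.h172.Nil.S_INVK := fun h => invk_core h

end Pool.Agent.Run7.h803.Nil
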